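import Mathlib
import Pool.Agent.Q87.IntTreeHyp

/-!
# MP_2744a5: a hypercyclic composition operator on a little Lipschitz space with bijective symbol

The tree has vertex set `ℤ` and root `0`; the parent of `x ≠ 0` is `x - sgn(x) 2 ^ ⌊log₄ |x|⌋`. The
symbol is `φ x = x + 1`.
-/

set_option autoImplicit false

namespace Pool.Agent.Results.MP_2744a5_an.SurjectiveSymbol

open Q87.LipTree

/-- The symbol: translation by one, a bijection of the vertex set. -/
def phi (x : ℤ) : ℤ := x + 1

/-- **Negative answer to Q1 of MP_2744a5.** On the rooted tree `intTree` (vertex set `ℤ`) the map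
`φ x = x + 1` induces a bounded composition operator `C_φ` on the little Lipschitz space, `λ C_φ` is
hypercyclic for every `λ` with `|λ| = 1`, and `φ` is a bijection, so the complement of its range is
empty (in particular finite). -/
theorem result : ∃ C : LipZero intTree →L[ℂ] LipZero intTree,
    (∀ (f : LipZero intTree) (x : ℤ), C f x = f (phi x)) ∧
    (∀ lam : ℂ, ‖lam‖ = 1 → Hypercyclic (lam • C)) ∧
    Function.Bijective phi ∧ (Set.range phi)ᶜ = ∅ := by
  have hb : Function.Bijective phi := by
    constructor
    · intro x y h
      unfold phi at h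
      omega
    · intro y
      exact ⟨y - 1, by unfold phi; omega⟩
  refine ⟨shiftOp, fun f x => rfl, shiftOp_hypercyclic, hb, ?_⟩
  rw [hb.surjective.range_eq, Set.compl_univ]

end Pool.Agent.Results.MP_2744a5_an.SurjectiveSymbol
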